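import Mathlib

/-!
# Homology classes of highway paths need not form a polyhedron

The surface is the torus `ℝ² / ℤ²` minus an open disc (genus one, one boundary circle). The network
consists of the horizontal circle and the vertical circle through the centre of the disc (both cut
open by the disc), a second horizontal circle and a second vertical circle, all directed to the right
and upwards. It has three crossings; at every crossing the horizontal strand is the highway and the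
vertical strand is the underway. The highway paths from the right end `u` of the horizontal diameter
of the disc to its left end `v` have the classes `(0, 0)` and `(k, 1)`, `k ≥ 1`.
-/

set_option autoImplicit false

namespace Pool.Agent.Results.MP_3d6951_co.NotPolyhedron

/-- The torus `ℝ² / ℤ²`. -/
abbrev Torus : Type := AddCircle (1 : ℝ) × AddCircle (1 : ℝ)

/-- The covering map of the torus by the plane. -/
def proj (x : ℝ × ℝ) : Torus := ((x.1 : AddCircle (1 : ℝ)), (x.2 : AddCircle (1 : ℝ)))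

/-- The surface: the torus minus the open disc of radius `1/8` around the point `0`. -/
def Surf : Set Torus := (proj '' {x | x.1 ^ 2 + x.2 ^ 2 < (1 / 8) ^ 2})ᶜ

/-- The boundary circle of the surface. -/
def bdry : Set Torus := proj '' {x | x.1 ^ 2 + x.2 ^ 2 = (1 / 8) ^ 2}

/-- The vectors `w₁, w₂, w₃, w₄` point in directions which follow each other strictly
counterclockwise, within one full turn. -/
def Ccw (w₁ w₂ w₃ w₄ : ℝ × ℝ) : Prop :=
  ∃ a b c d : ℝ, a < b ∧ b < c ∧ c < d ∧ d < a + 2 * Real.pi ∧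
    (∃ r > 0, w₁ = (r * Real.cos a, r * Real.sin a)) ∧
    (∃ r > 0, w₂ = (r * Real.cos b, r * Real.sin b)) ∧
    (∃ r > 0, w₃ = (r * Real.cos c, r * Real.sin c)) ∧
    (∃ r > 0, w₄ = (r * Real.cos d, r * Real.sin d))

/-- An oriented network in the surface `Surf`. The edge `e` is the path `t ↦ proj (lift e t)`,
`0 ≤ t ≤ 1`, given by a lift to the plane, from the vertex `tail e` to the vertex `head e`; it is
straight near its ends. -/
structure Network where
  /-- the vertices -/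
  V : Type
  /-- the edges -/
  E : Type
  finV : Finite V
  finE : Finite E
  /-- the position of a vertex -/
  pos : V → Torus
  pos_inj : Function.Injective pos
  pos_mem : ∀ x, pos x ∈ Surf
  /-- the initial vertex of an edge -/
  tail : E → V
  /-- the final vertex of an edge -/
  head : E → V
  /-- the lift of an edge to the plane -/
  lift : E → ℝ → ℝ × ℝ
  lift_cont : ∀ e, ContinuousOn (lift e) (Set.Icc 0 1)
  lift_zero : ∀ e, proj (lift e 0) = pos (tail e)
  lift_one : ∀ e, proj (lift e 1) = pos (head e)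
  /-- edges run in the surface -/
  lift_mem : ∀ e, ∀ t ∈ Set.Icc (0 : ℝ) 1, proj (lift e t) ∈ Surf
  /-- the interiors of edges do not meet the boundary, vertices, or one another -/
  lift_bdry : ∀ e, ∀ t ∈ Set.Ioo (0 : ℝ) 1, proj (lift e t) ∉ bdry
  lift_pos : ∀ e, ∀ t ∈ Set.Ioo (0 : ℝ) 1, ∀ x, proj (lift e t) ≠ pos x
  lift_inj : ∀ e e', ∀ t ∈ Set.Ioo (0 : ℝ) 1, ∀ t' ∈ Set.Ioo (0 : ℝ) 1,
    proj (lift e t) = proj (lift e' t') → e = e' ∧ t = t'
  /-- the direction in which an edge leaves its initial vertex -/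
  out : E → ℝ × ℝ
  /-- the direction in which an edge arrives at its final vertex -/
  inc : E → ℝ × ℝ
  out_spec : ∀ e, ∃ ε > 0, ∀ t ∈ Set.Icc 0 ε, lift e t = lift e 0 + t • out e
  inc_spec : ∀ e, ∃ ε > 0, ∀ t ∈ Set.Icc 0 ε, lift e (1 - t) = lift e 1 - t • inc e
  /-- the incoming edges `e₁`, `e₂` and the outgoing edges `f₁`, `f₂` of interior vertices (the
  values at boundary vertices are irrelevant) -/
  e₁ : V → E
  e₂ : V → E
  f₁ : V → E
  f₂ : V → E
  /-- an interior vertex has in-degree two and out-degree two, and the edges `e₁, e₂, f₁, f₂` follow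
  each other counterclockwise -/
  interior : ∀ x, pos x ∉ bdry →
    (∀ e, head e = x ↔ e = e₁ x ∨ e = e₂ x) ∧ e₁ x ≠ e₂ x ∧
    (∀ e, tail e = x ↔ e = f₁ x ∨ e = f₂ x) ∧ f₁ x ≠ f₂ x ∧
    Ccw (-(inc (e₁ x))) (-(inc (e₂ x))) (out (f₁ x)) (out (f₂ x))
  /-- a boundary vertex has degree at most one -/
  boundary : ∀ x, pos x ∈ bdry →
    (∀ e e', (tail e = x ∨ head e = x) → (tail e' = x ∨ head e' = x) → e = e') ∧
    ∀ e, ¬ (tail e = x ∧ head e = x)

/-- A highway path is a nonempty list of consecutive edges which never enters a vertex `x` through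
`e₂ x` and leaves it through `f₂ x`. -/
def IsHighway (N : Network) : List N.E → Prop
  | [] => False
  | [_] => True
  | e :: e' :: l => N.head e = N.tail e' ∧ ¬ (e = N.e₂ (N.head e) ∧ e' = N.f₂ (N.head e)) ∧
      IsHighway N (e' :: l)

/-- The highway path `q` leads from the vertex `u` to the vertex `v`. -/
def HighwayPath (N : Network) (u v : N.V) (q : List N.E) : Prop :=
  IsHighway N q ∧ (∃ e ∈ q.head?, N.tail e = u) ∧ ∃ e ∈ q.getLast?, N.head e = v

/-- The displacement of a path: the sum of the displacements of the lifts of its edges. -/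
def disp (N : Network) (q : List N.E) : ℝ × ℝ :=
  (q.map fun e => N.lift e 1 - N.lift e 0).sum

/-- `p` is a lift to the plane of an oriented path in the surface from `u` to `v`. -/
def IsBasepath (N : Network) (u v : N.V) (p : ℝ → ℝ × ℝ) : Prop :=
  ContinuousOn p (Set.Icc 0 1) ∧ proj (p 0) = N.pos u ∧ proj (p 1) = N.pos v ∧
    ∀ t ∈ Set.Icc (0 : ℝ) 1, proj (p t) ∈ Surf

/-- The set `H(u, v)` with respect to the basepath `p`. The homology class of a closed path in the
surface is the displacement of its lift, an element of `ℤ²` (the inclusion of the surface in the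
torus induces an isomorphism of the first homology groups, and `H₁(ℝ² / ℤ²) = ℤ²` by the
displacement of lifts). -/
def H (N : Network) (u v : N.V) (p : ℝ → ℝ × ℝ) : Set (ℤ × ℤ) :=
  {z | ∃ q : List N.E, HighwayPath N u v q ∧
    disp N q - (p 1 - p 0) = ((z.1 : ℝ), (z.2 : ℝ))}

/-! ### Points of the torus -/

theorem coe_eq_iff (x y : ℝ) :
    (x : AddCircle (1 : ℝ)) = (y : AddCircle (1 : ℝ)) ↔ ∃ n : ℤ, x - y = n := by
  rw [← sub_eq_zero, ← AddCircle.coe_sub, AddCircle.coe_eq_zero_iff]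
  constructor
  · rintro ⟨n, hn⟩
    exact ⟨n, by simpa using hn.symm⟩
  · rintro ⟨n, hn⟩
    exact ⟨n, by simpa using hn.symm⟩

theorem proj_eq_iff (x y : ℝ × ℝ) :
    proj x = proj y ↔ ∃ m n : ℤ, x.1 - y.1 = m ∧ x.2 - y.2 = n := by
  unfold proj
  rw [Prod.mk.injEq, coe_eq_iff, coe_eq_iff]
  constructor
  · rintro ⟨⟨m, hm⟩, n, hn⟩
    exact ⟨m, n, hm, hn⟩
  · rintro ⟨m, n, hm, hn⟩
    exact ⟨⟨m, hm⟩, n, hn⟩

theorem int_zero_of_lt (n : ℤ) (x y : ℝ) (hx : 0 ≤ x) (hx1 : x < 1) (hy : 0 ≤ y) (hy1 : y < 1)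
    (h : x - y = n) : x = y := by
  have h1 : (-1 : ℝ) < n := by linarith
  have h2 : (n : ℝ) < 1 := by linarith
  have h3 : -1 < n := by exact_mod_cast h1
  have h4 : n < 1 := by exact_mod_cast h2
  have h5 : n = 0 := by omega
  rw [h5] at h
  push_cast at h
  linarith

/-- the covering map is injective on the half-open square -/
theorem proj_inj {x y : ℝ × ℝ} (hx1 : 0 ≤ x.1) (hx1' : x.1 < 1) (hx2 : 0 ≤ x.2) (hx2' : x.2 < 1)
    (hy1 : 0 ≤ y.1) (hy1' : y.1 < 1) (hy2 : 0 ≤ y.2) (hy2' : y.2 < 1) (h : proj x = proj y) :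
    x.1 = y.1 ∧ x.2 = y.2 := by
  obtain ⟨m, n, hm, hn⟩ := (proj_eq_iff x y).1 h
  exact ⟨int_zero_of_lt m _ _ hx1 hx1' hy1 hy1' hm, int_zero_of_lt n _ _ hx2 hx2' hy2 hy2' hn⟩

theorem sq_ge (n : ℤ) (x : ℝ) (h1 : 1 / 8 ≤ x) (h2 : x ≤ 7 / 8) : (1 / 8 : ℝ) ^ 2 ≤ (x - n) ^ 2 := by
  rcases le_or_gt n 0 with hn | hn
  · have : (n : ℝ) ≤ 0 := by exact_mod_cast hn
    nlinarith
  · have : (1 : ℝ) ≤ n := by exact_mod_cast hn
    nlinarith

theorem sq_gt (n : ℤ) (x : ℝ) (h1 : 1 / 8 < x) (h2 : x < 7 / 8) : (1 / 8 : ℝ) ^ 2 < (x - n) ^ 2 := by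
  rcases le_or_gt n 0 with hn | hn
  · have : (n : ℝ) ≤ 0 := by exact_mod_cast hn
    nlinarith
  · have : (1 : ℝ) ≤ n := by exact_mod_cast hn
    nlinarith

theorem mem_surf (x : ℝ × ℝ) (h : (1 / 8 ≤ x.1 ∧ x.1 ≤ 7 / 8) ∨ (1 / 8 ≤ x.2 ∧ x.2 ≤ 7 / 8)) :
    proj x ∈ Surf := by
  rintro ⟨y, hy, hyx⟩
  obtain ⟨m, n, hm, hn⟩ := (proj_eq_iff x y).1 hyx.symm
  have h1 : y.1 = x.1 - m := by linarith
  have h2 : y.2 = x.2 - n := by linarith
  simp only [Set.mem_ofPred_eq] at hy
  rw [h1, h2] at hy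
  rcases h with h | h
  · have := sq_ge m x.1 h.1 h.2
    nlinarith [sq_nonneg (x.2 - n)]
  · have := sq_ge n x.2 h.1 h.2
    nlinarith [sq_nonneg (x.1 - m)]

theorem not_mem_bdry (x : ℝ × ℝ) (h : (1 / 8 < x.1 ∧ x.1 < 7 / 8) ∨ (1 / 8 < x.2 ∧ x.2 < 7 / 8)) :
    proj x ∉ bdry := by
  rintro ⟨y, hy, hyx⟩
  obtain ⟨m, n, hm, hn⟩ := (proj_eq_iff x y).1 hyx.symm
  have h1 : y.1 = x.1 - m := by linarith
  have h2 : y.2 = x.2 - n := by linarith
  simp only [Set.mem_ofPred_eq] at hy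
  rw [h1, h2] at hy
  rcases h with h | h
  · have := sq_gt m x.1 h.1 h.2
    nlinarith [sq_nonneg (x.2 - n)]
  · have := sq_gt n x.2 h.1 h.2
    nlinarith [sq_nonneg (x.1 - m)]

/-! ### The network -/

/-- the vertices: three crossings and four boundary vertices -/
inductive Vt
  | X | Y | Z | u | v | u' | v'
  deriving DecidableEq

/-- the edges -/
inductive Ed
  | a | b | s | t | l | m | c | d
  deriving DecidableEq

/-- the position of a vertex in the unit square -/
noncomputable def Vt.pt : Vt → ℝ × ℝ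
  | .X => (1 / 2, 0)
  | .Y => (1 / 2, 1 / 2)
  | .Z => (0, 1 / 2)
  | .u => (1 / 8, 0)
  | .v => (7 / 8, 0)
  | .u' => (0, 1 / 8)
  | .v' => (0, 7 / 8)

/-- the initial vertex -/
def Ed.tl : Ed → Vt
  | .a => .u
  | .b => .X
  | .s => .X
  | .t => .Y
  | .l => .Y
  | .m => .Z
  | .c => .u'
  | .d => .Z

/-- the final vertex -/
def Ed.hd : Ed → Vt
  | .a => .X
  | .b => .v
  | .s => .Y
  | .t => .X
  | .l => .Z
  | .m => .Y
  | .c => .Z
  | .d => .v'

/-- the vector of an edge -/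
noncomputable def Ed.vec : Ed → ℝ × ℝ
  | .a => (3 / 8, 0)
  | .b => (3 / 8, 0)
  | .s => (0, 1 / 2)
  | .t => (0, 1 / 2)
  | .l => (1 / 2, 0)
  | .m => (1 / 2, 0)
  | .c => (0, 3 / 8)
  | .d => (0, 3 / 8)

/-- the edges are straight -/
noncomputable def Ed.path (e : Ed) (r : ℝ) : ℝ × ℝ := e.tl.pt + r • e.vec

theorem ccw_std (r₁ r₂ r₃ r₄ : ℝ) (h₁ : 0 < r₁) (h₂ : 0 < r₂) (h₃ : 0 < r₃) (h₄ : 0 < r₄) :
    Ccw (-(r₁, 0)) (-(0, r₂)) (r₃, 0) (0, r₄) := by
  have hpi := Real.pi_pos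
  refine ⟨-Real.pi, -(Real.pi / 2), 0, Real.pi / 2, by linarith, by linarith, by linarith,
    by linarith, ⟨r₁, h₁, ?_⟩, ⟨r₂, h₂, ?_⟩, ⟨r₃, h₃, ?_⟩, ⟨r₄, h₄, ?_⟩⟩ <;> simp

instance : Fintype Vt where
  elems := {.X, .Y, .Z, .u, .v, .u', .v'}
  complete x := by cases x <;> simp

instance : Fintype Ed where
  elems := {.a, .b, .s, .t, .l, .m, .c, .d}
  complete x := by cases x <;> simp

theorem Vt.pt_range (x : Vt) : 0 ≤ x.pt.1 ∧ x.pt.1 < 1 ∧ 0 ≤ x.pt.2 ∧ x.pt.2 < 1 := by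
  cases x <;> norm_num [Vt.pt]

theorem Vt.pt_surf (x : Vt) :
    (1 / 8 ≤ x.pt.1 ∧ x.pt.1 ≤ 7 / 8) ∨ (1 / 8 ≤ x.pt.2 ∧ x.pt.2 ≤ 7 / 8) := by
  cases x <;> norm_num [Vt.pt]

theorem Ed.path_range (e : Ed) (r : ℝ) (h0 : 0 < r) (h1 : r < 1) :
    0 ≤ (e.path r).1 ∧ (e.path r).1 < 1 ∧ 0 ≤ (e.path r).2 ∧ (e.path r).2 < 1 := by
  cases e <;> simp only [Ed.path, Ed.tl, Ed.vec, Vt.pt, Prod.fst_add, Prod.snd_add, Prod.smul_fst,
    Prod.smul_snd, smul_eq_mul] <;> refine ⟨?_, ?_, ?_, ?_⟩ <;> linarith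

theorem Ed.path_surf (e : Ed) (r : ℝ) (h0 : 0 ≤ r) (h1 : r ≤ 1) :
    (1 / 8 ≤ (e.path r).1 ∧ (e.path r).1 ≤ 7 / 8) ∨
      (1 / 8 ≤ (e.path r).2 ∧ (e.path r).2 ≤ 7 / 8) := by
  cases e <;> simp only [Ed.path, Ed.tl, Ed.vec, Vt.pt, Prod.fst_add, Prod.snd_add, Prod.smul_fst,
    Prod.smul_snd, smul_eq_mul]
  · left; constructor <;> linarith
  · left; constructor <;> linarith
  · left; constructor <;> linarith
  · left; constructor <;> linarith
  · right; constructor <;> linarith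
  · right; constructor <;> linarith
  · right; constructor <;> linarith
  · right; constructor <;> linarith

theorem Ed.path_bdry (e : Ed) (r : ℝ) (h0 : 0 < r) (h1 : r < 1) :
    (1 / 8 < (e.path r).1 ∧ (e.path r).1 < 7 / 8) ∨
      (1 / 8 < (e.path r).2 ∧ (e.path r).2 < 7 / 8) := by
  cases e <;> simp only [Ed.path, Ed.tl, Ed.vec, Vt.pt, Prod.fst_add, Prod.snd_add, Prod.smul_fst,
    Prod.smul_snd, smul_eq_mul]
  · left; constructor <;> linarith
  · left; constructor <;> linarith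
  · left; constructor <;> linarith
  · left; constructor <;> linarith
  · right; constructor <;> linarith
  · right; constructor <;> linarith
  · right; constructor <;> linarith
  · right; constructor <;> linarith

theorem Ed.path_ne (e : Ed) (r : ℝ) (h0 : 0 < r) (h1 : r < 1) (x : Vt)
    (h : (e.path r).1 = x.pt.1 ∧ (e.path r).2 = x.pt.2) : False := by
  cases e <;> cases x <;> simp only [Ed.path, Ed.tl, Ed.vec, Vt.pt, Prod.fst_add, Prod.snd_add,
    Prod.smul_fst, Prod.smul_snd, smul_eq_mul] at h <;> linarith [h.1, h.2]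

theorem Ed.path_inj (e e' : Ed) (r r' : ℝ) (h0 : 0 < r) (h1 : r < 1) (h0' : 0 < r') (h1' : r' < 1)
    (h : (e.path r).1 = (e'.path r').1 ∧ (e.path r).2 = (e'.path r').2) : e = e' ∧ r = r' := by
  cases e <;> cases e' <;> simp only [Ed.path, Ed.tl, Ed.vec, Vt.pt, Prod.fst_add, Prod.snd_add,
    Prod.smul_fst, Prod.smul_snd, smul_eq_mul] at h <;>
    first
    | (refine ⟨rfl, ?_⟩; linarith [h.1, h.2])
    | (exfalso; linarith [h.1, h.2])

theorem Vt.eq_of_pt (x y : Vt) (h : x.pt.1 = y.pt.1 ∧ x.pt.2 = y.pt.2) : x = y := by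
  cases x <;> cases y <;> simp only [Vt.pt] at h <;> first | rfl | (exfalso; linarith [h.1, h.2])

theorem Ed.path_zero (e : Ed) : e.path 0 = e.tl.pt := by
  simp [Ed.path]

theorem Ed.path_one (e : Ed) : proj (e.path 1) = proj e.hd.pt := by
  rw [proj_eq_iff]
  cases e
  · exact ⟨0, 0, by norm_num [Ed.path, Ed.tl, Ed.hd, Ed.vec, Vt.pt],
      by norm_num [Ed.path, Ed.tl, Ed.hd, Ed.vec, Vt.pt]⟩
  · exact ⟨0, 0, by norm_num [Ed.path, Ed.tl, Ed.hd, Ed.vec, Vt.pt],
      by norm_num [Ed.path, Ed.tl, Ed.hd, Ed.vec, Vt.pt]⟩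
  · exact ⟨0, 0, by norm_num [Ed.path, Ed.tl, Ed.hd, Ed.vec, Vt.pt],
      by norm_num [Ed.path, Ed.tl, Ed.hd, Ed.vec, Vt.pt]⟩
  · exact ⟨0, 1, by norm_num [Ed.path, Ed.tl, Ed.hd, Ed.vec, Vt.pt],
      by norm_num [Ed.path, Ed.tl, Ed.hd, Ed.vec, Vt.pt]⟩
  · exact ⟨1, 0, by norm_num [Ed.path, Ed.tl, Ed.hd, Ed.vec, Vt.pt],
      by norm_num [Ed.path, Ed.tl, Ed.hd, Ed.vec, Vt.pt]⟩
  · exact ⟨0, 0, by norm_num [Ed.path, Ed.tl, Ed.hd, Ed.vec, Vt.pt],
      by norm_num [Ed.path, Ed.tl, Ed.hd, Ed.vec, Vt.pt]⟩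
  · exact ⟨0, 0, by norm_num [Ed.path, Ed.tl, Ed.hd, Ed.vec, Vt.pt],
      by norm_num [Ed.path, Ed.tl, Ed.hd, Ed.vec, Vt.pt]⟩
  · exact ⟨0, 0, by norm_num [Ed.path, Ed.tl, Ed.hd, Ed.vec, Vt.pt],
      by norm_num [Ed.path, Ed.tl, Ed.hd, Ed.vec, Vt.pt]⟩

/-- the edge entering from the left -/
def inLeft : Vt → Ed
  | .X => .a
  | .Y => .m
  | .Z => .l
  | _ => .a

/-- the edge entering from below -/
def inBelow : Vt → Ed
  | .X => .t
  | .Y => .s
  | .Z => .c
  | _ => .a

/-- the edge leaving to the right -/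
def outRight : Vt → Ed
  | .X => .b
  | .Y => .l
  | .Z => .m
  | _ => .a

/-- the edge leaving upwards -/
def outUp : Vt → Ed
  | .X => .s
  | .Y => .t
  | .Z => .d
  | _ => .a

theorem bdry_u : proj Vt.u.pt ∈ bdry :=
  ⟨(1 / 8, 0), by norm_num, rfl⟩

theorem bdry_v : proj Vt.v.pt ∈ bdry :=
  ⟨(-(1 / 8), 0), by norm_num, by
    rw [proj_eq_iff]
    exact ⟨-1, 0, by norm_num [Vt.pt], by norm_num [Vt.pt]⟩⟩

theorem bdry_u' : proj Vt.u'.pt ∈ bdry :=
  ⟨(0, 1 / 8), by norm_num, rfl⟩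

theorem bdry_v' : proj Vt.v'.pt ∈ bdry :=
  ⟨(0, -(1 / 8)), by norm_num, by
    rw [proj_eq_iff]
    exact ⟨0, -1, by norm_num [Vt.pt], by norm_num [Vt.pt]⟩⟩

theorem inner_XYZ (x : Vt) (h : proj x.pt ∉ bdry) : x = .X ∨ x = .Y ∨ x = .Z := by
  cases x
  · simp
  · simp
  · simp
  · exact absurd bdry_u h
  · exact absurd bdry_v h
  · exact absurd bdry_u' h
  · exact absurd bdry_v' h

theorem outer_uv (x : Vt) (h : proj x.pt ∈ bdry) : x = .u ∨ x = .v ∨ x = .u' ∨ x = .v' := by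
  cases x
  · exact absurd h (not_mem_bdry _ (by norm_num [Vt.pt]))
  · exact absurd h (not_mem_bdry _ (by norm_num [Vt.pt]))
  · exact absurd h (not_mem_bdry _ (by norm_num [Vt.pt]))
  all_goals simp

/-- The network. -/
noncomputable def net : Network where
  V := Vt
  E := Ed
  finV := inferInstance
  finE := inferInstance
  pos x := proj x.pt
  pos_inj x y h := by
    obtain ⟨h1, h2, h3, h4⟩ := x.pt_range
    obtain ⟨k1, k2, k3, k4⟩ := y.pt_range
    exact Vt.eq_of_pt x y (proj_inj h1 h2 h3 h4 k1 k2 k3 k4 h)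
  pos_mem x := mem_surf _ x.pt_surf
  tail := Ed.tl
  head := Ed.hd
  lift := Ed.path
  lift_cont e := by
    unfold Ed.path
    fun_prop
  lift_zero e := by rw [Ed.path_zero]
  lift_one e := Ed.path_one e
  lift_mem e t ht := mem_surf _ (e.path_surf t ht.1 ht.2)
  lift_bdry e t ht := not_mem_bdry _ (e.path_bdry t ht.1 ht.2)
  lift_pos e t ht x h := by
    obtain ⟨h1, h2, h3, h4⟩ := e.path_range t ht.1 ht.2
    obtain ⟨k1, k2, k3, k4⟩ := x.pt_range
    exact e.path_ne t ht.1 ht.2 x (proj_inj h1 h2 h3 h4 k1 k2 k3 k4 h)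
  lift_inj e e' t ht t' ht' h := by
    obtain ⟨h1, h2, h3, h4⟩ := e.path_range t ht.1 ht.2
    obtain ⟨k1, k2, k3, k4⟩ := e'.path_range t' ht'.1 ht'.2
    exact Ed.path_inj e e' t t' ht.1 ht.2 ht'.1 ht'.2 (proj_inj h1 h2 h3 h4 k1 k2 k3 k4 h)
  out := Ed.vec
  inc := Ed.vec
  out_spec e := ⟨1, one_pos, fun t _ => by simp [Ed.path]⟩
  inc_spec e := ⟨1, one_pos, fun t _ => by
    simp only [Ed.path]
    module⟩
  e₁ := inLeft
  e₂ := inBelow
  f₁ := outRight
  f₂ := outUp
  interior x hx := by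
    rcases inner_XYZ x hx with rfl | rfl | rfl
    · refine ⟨fun e => by cases e <;> simp [Ed.hd, inLeft, inBelow], by simp [inLeft, inBelow],
        fun e => by cases e <;> simp [Ed.tl, outRight, outUp], by simp [outRight, outUp], ?_⟩
      exact ccw_std _ _ _ _ (by norm_num) (by norm_num) (by norm_num) (by norm_num)
    · refine ⟨fun e => by cases e <;> simp [Ed.hd, inLeft, inBelow], by simp [inLeft, inBelow],
        fun e => by cases e <;> simp [Ed.tl, outRight, outUp], by simp [outRight, outUp], ?_⟩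
      exact ccw_std _ _ _ _ (by norm_num) (by norm_num) (by norm_num) (by norm_num)
    · refine ⟨fun e => by cases e <;> simp [Ed.hd, inLeft, inBelow], by simp [inLeft, inBelow],
        fun e => by cases e <;> simp [Ed.tl, outRight, outUp], by simp [outRight, outUp], ?_⟩
      exact ccw_std _ _ _ _ (by norm_num) (by norm_num) (by norm_num) (by norm_num)
  boundary x hx := by
    refine ⟨fun e e' => ?_, fun e => by cases e <;> cases x <;> simp [Ed.tl, Ed.hd]⟩
    rcases outer_uv x hx with rfl | rfl | rfl | rfl <;> cases e <;> cases e' <;>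
      simp [Ed.tl, Ed.hd]

/-! ### Highway paths -/

/-- highway paths of the network `net` -/
def Hw : List Ed → Prop
  | [] => False
  | [_] => True
  | e :: e' :: l => e.hd = e'.tl ∧ ¬ (e = inBelow e.hd ∧ e' = outUp e.hd) ∧ Hw (e' :: l)

theorem hw_iff (q : List Ed) : IsHighway net q ↔ Hw q := by
  match q with
  | [] => exact Iff.rfl
  | [_] => exact Iff.rfl
  | e :: e' :: l =>
    exact and_congr Iff.rfl (and_congr Iff.rfl (hw_iff (e' :: l)))

/-- highway paths of the network `net` from `u` to `v` -/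
def HwPath (q : List Ed) : Prop :=
  Hw q ∧ (∃ e ∈ q.head?, e.tl = .u) ∧ ∃ e ∈ q.getLast?, e.hd = .v

theorem hwPath_iff (q : List Ed) : HighwayPath net Vt.u Vt.v q ↔ HwPath q := by
  unfold HighwayPath HwPath
  rw [← hw_iff]
  exact Iff.rfl

/-- the displacement of a path in the network `net` -/
noncomputable def dsp (q : List Ed) : ℝ × ℝ := (q.map Ed.vec).sum

theorem disp_eq (q : List Ed) : disp net q = dsp q := by
  have h : (fun e : Ed => e.path 1 - e.path 0) = Ed.vec := by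
    funext e
    simp [Ed.path]
  change (q.map fun e : Ed => e.path 1 - e.path 0).sum = _
  rw [h]
  rfl

theorem dsp_nil : dsp [] = 0 := rfl

theorem dsp_cons (e : Ed) (q : List Ed) : dsp (e :: q) = e.vec + dsp q := by
  unfold dsp
  rw [List.map_cons, List.sum_cons]

theorem dsp_snd_nonneg (q : List Ed) : 0 ≤ (dsp q).2 := by
  induction q with
  | nil => simp [dsp_nil]
  | cons e q ih =>
    rw [dsp_cons, Prod.snd_add]
    have : 0 ≤ e.vec.2 := by cases e <;> norm_num [Ed.vec]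
    linarith

/-- the only highway path from `u` to `v` without vertical displacement is the direct one -/
theorem direct (q : List Ed) (h : HwPath q) (h2 : (dsp q).2 = 0) : dsp q = (3 / 4, 0) := by
  obtain ⟨hq, ⟨e, he, heu⟩, ⟨g, hg, hgv⟩⟩ := h
  match q, hq with
  | [], hq => exact absurd hq id
  | [x], _ =>
    simp only [List.head?_cons, Option.mem_some_iff] at he
    simp only [List.getLast?_singleton, Option.mem_some_iff] at hg
    subst he
    subst hg
    cases x <;> simp [Ed.tl, Ed.hd] at heu hgv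
  | x :: y :: l, hq =>
    simp only [List.head?_cons, Option.mem_some_iff] at he
    subst he
    obtain ⟨hxy, -, hl⟩ := hq
    cases x <;> simp [Ed.tl] at heu
    cases y <;> simp [Ed.hd, Ed.tl] at hxy
    · -- the second edge leads to `v`
      match l, hl with
      | [], _ =>
        rw [dsp_cons, dsp_cons, dsp_nil]
        norm_num [Ed.vec]
      | z :: l', hl =>
        obtain ⟨hbz, -, -⟩ := hl
        cases z <;> simp [Ed.hd, Ed.tl] at hbz
    · exfalso
      rw [dsp_cons, dsp_cons] at h2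
      have := dsp_snd_nonneg l
      simp only [Ed.vec, Prod.snd_add] at h2
      linarith

/-- the part of the highway path which runs `k + 1` times around the upper horizontal circle -/
def loops : ℕ → List Ed
  | 0 => [.l, .m, .t, .b]
  | k + 1 => .l :: .m :: loops k

theorem loops_highway (k : ℕ) : Hw (loops k) ∧ (∃ l, loops k = .l :: l) ∧
    (∃ e ∈ (loops k).getLast?, Ed.hd e = .v) ∧
    dsp (loops k) = ((k : ℝ) + 1 + 3 / 8, 1 / 2) := by
  induction k with
  | zero =>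
    refine ⟨⟨rfl, by simp [Ed.hd, inBelow], rfl, by simp [Ed.hd, inBelow], rfl,
      by simp [Ed.hd, inBelow, outUp], trivial⟩, ⟨_, rfl⟩, ⟨.b, by simp [loops], rfl⟩, ?_⟩
    simp only [loops]
    rw [dsp_cons, dsp_cons, dsp_cons, dsp_cons, dsp_nil]
    norm_num [Ed.vec]
  | succ k ih =>
    obtain ⟨h1, ⟨l, hl⟩, ⟨e, he, hev⟩, h4⟩ := ih
    refine ⟨?_, ⟨_, rfl⟩, ⟨e, ?_, hev⟩, ?_⟩
    · simp only [loops]
      rw [hl] at h1 ⊢
      exact ⟨rfl, by simp [Ed.hd, inBelow], rfl, by simp [Ed.hd, inBelow], h1⟩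
    · simp only [loops]
      rw [hl] at he ⊢
      rw [List.getLast?_cons_cons, List.getLast?_cons_cons]
      exact he
    · simp only [loops]
      rw [dsp_cons, dsp_cons, h4]
      simp only [Ed.vec, Prod.mk_add_mk]
      push_cast
      rw [Prod.mk.injEq]
      constructor <;> ring

theorem long_path (k : ℕ) : ∃ q, HwPath q ∧ dsp q = ((k : ℝ) + 1 + 3 / 4, 1) := by
  obtain ⟨h1, ⟨l, hl⟩, ⟨e, he, hev⟩, h4⟩ := loops_highway k
  refine ⟨.a :: .s :: loops k, ⟨?_, ⟨.a, rfl, rfl⟩, e, ?_, hev⟩, ?_⟩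
  · rw [hl] at h1 ⊢
    exact ⟨rfl, by simp [Ed.hd, inBelow], rfl, by simp [Ed.hd, outUp], h1⟩
  · rw [hl] at he ⊢
    rw [List.getLast?_cons_cons, List.getLast?_cons_cons]
    exact he
  · rw [dsp_cons, dsp_cons, h4]
    simp only [Ed.vec, Prod.mk_add_mk]
    rw [Prod.mk.injEq]
    constructor <;> ring

theorem short_path : HwPath [Ed.a, Ed.b] ∧ dsp [Ed.a, Ed.b] = (3 / 4, 0) := by
  refine ⟨⟨⟨rfl, by simp [Ed.hd, inBelow], trivial⟩, ⟨.a, rfl, rfl⟩, .b, rfl, rfl⟩, ?_⟩
  rw [dsp_cons, dsp_cons, dsp_nil]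
  norm_num [Ed.vec]

/-- The direct path is a basepath. -/
theorem basepath : IsBasepath net Vt.u Vt.v fun t => (1 / 8 + t * (3 / 4), 0) := by
  refine ⟨by fun_prop, ?_, ?_, fun t ht => ?_⟩
  · change proj _ = proj Vt.u.pt
    norm_num [Vt.pt]
  · change proj _ = proj Vt.v.pt
    norm_num [Vt.pt]
  · refine mem_surf _ (Or.inl ⟨?_, ?_⟩)
    · have := ht.1
      simp only
      linarith
    · have := ht.2
      simp only
      linarith

/-- **`H(u, v)` need not be a polyhedron.** There is an oriented network in the torus minus an open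
disc, with boundary vertices `u` and `v`, such that for every basepath `p` from `u` to `v` (and there
are such basepaths) the set `H(u, v)` is not the set of lattice points of any polyhedron, that is,
of the solution set of finitely many affine inequalities `A i · x ≤ b i`. -/
theorem result : ∃ (N : Network) (u v : N.V), N.pos u ∈ bdry ∧ N.pos v ∈ bdry ∧
    (∃ p, IsBasepath N u v p) ∧
    ∀ p, IsBasepath N u v p → ∀ (n : ℕ) (A : Fin n → ℝ × ℝ) (b : Fin n → ℝ),
      H N u v p ≠ {z : ℤ × ℤ | ∀ i, (A i).1 * z.1 + (A i).2 * z.2 ≤ b i} := by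
  refine ⟨net, Vt.u, Vt.v, bdry_u, bdry_v, ⟨_, basepath⟩, fun p hp n A b hH => ?_⟩
  -- the displacement of the basepath
  obtain ⟨-, hp0, hp1, -⟩ := hp
  obtain ⟨m0, n0, h1, h2⟩ := (proj_eq_iff _ _).1 hp0
  obtain ⟨m1, n1, h3, h4⟩ := (proj_eq_iff _ _).1 hp1
  obtain ⟨M, N, hM, hN⟩ : ∃ M N : ℤ, (p 1 - p 0).1 = 3 / 4 - M ∧ (p 1 - p 0).2 = -(N : ℝ) := by
    refine ⟨m0 - m1, n0 - n1, ?_, ?_⟩
    · simp only [Vt.pt, Prod.fst_sub] at *
      push_cast
      linarith
    · simp only [Vt.pt, Prod.snd_sub] at *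
      push_cast
      linarith
  have key : ∀ z : ℤ × ℤ, z ∈ H net Vt.u Vt.v p ↔
      ∃ q, HwPath q ∧ (dsp q).1 = 3 / 4 + (z.1 - M) ∧ (dsp q).2 = z.2 - N := by
    intro z
    constructor
    · rintro ⟨q, hq, hz⟩
      have hz : dsp q - (p 1 - p 0) = ((z.1 : ℝ), (z.2 : ℝ)) := by
        have h0 := disp_eq q
        exact (congrArg (fun w => w - (p 1 - p 0)) h0).symm.trans hz
      refine ⟨q, (hwPath_iff q).1 hq, ?_, ?_⟩
      · have := congrArg Prod.fst hz
        rw [Prod.fst_sub, hM] at this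
        linarith
      · have := congrArg Prod.snd hz
        rw [Prod.snd_sub, hN] at this
        linarith
    · rintro ⟨q, hq, hz1, hz2⟩
      refine ⟨q, (hwPath_iff q).2 hq, ?_⟩
      rw [disp_eq]
      refine Prod.ext ?_ ?_
      · rw [Prod.fst_sub, hM, hz1]
        ring
      · rw [Prod.snd_sub, hN, hz2]
        ring
  -- the classes `(M, N)` and `(M + k + 1, N + 1)` are in `H`
  have e0 : ((M, N) : ℤ × ℤ) ∈ H net Vt.u Vt.v p := by
    rw [key]
    refine ⟨_, short_path.1, ?_, ?_⟩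
    · rw [short_path.2]
      simp
    · rw [short_path.2]
      simp
  have ek : ∀ k : ℕ, ((M + k + 1, N + 1) : ℤ × ℤ) ∈ H net Vt.u Vt.v p := by
    intro k
    rw [key]
    obtain ⟨q, hq, hd⟩ := long_path k
    refine ⟨q, hq, ?_, ?_⟩
    · rw [hd]
      push_cast
      ring
    · rw [hd]
      push_cast
      ring
  -- the class `(M + 1, N)` is not in `H`
  have e1 : ((M + 1, N) : ℤ × ℤ) ∉ H net Vt.u Vt.v p := by
    rw [key]
    rintro ⟨q, hq, hz1, hz2⟩
    rw [direct q hq (by rw [hz2]; simp)] at hz1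
    push_cast at hz1
    linarith
  refine e1 ?_
  rw [hH] at e0 ek ⊢
  intro i
  have f0 := e0 i
  -- the first coefficient is nonpositive
  have hA : (A i).1 ≤ 0 := by
    by_contra hcon
    push Not at hcon
    obtain ⟨k, hk⟩ := exists_nat_gt ((b i - (A i).1 * (M + 1) - (A i).2 * (N + 1)) / (A i).1)
    have := ek k i
    rw [div_lt_iff₀ hcon] at hk
    push_cast at this
    nlinarith
  push_cast at f0 ⊢
  nlinarith

end Pool.Agent.Results.MP_3d6951_co.NotPolyhedron
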